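import Pool.Agent.W2helper25.LS.Base

/-!
# Attracting periodic points of local similarities
-/

set_option autoImplicit false
set_option linter.unusedSectionVars false

namespace Pool.Agent.W2helper25.LS

open Filter Topology Set Metric

universe u v

variable {Γ : Type u} {X : Type v} [Group Γ] [MetricSpace X] [MulAction Γ X]
variable [IsUltrametricDist X] [CompactSpace X]
variable (h : LocSim Γ X) (hp : ∀ x : X, (𝓝[≠] x).NeBot)

include h in
/-- a contraction of a ball into itself has a fixed point -/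
lemma exists_fixed {g : Γ} {y : X} {r l : ℝ} (hr : 0 < r) (hs : SimOn g y r l) (hl : l < 1)
    (hk : dist (g • y) y < r) : ∃ z : X, dist z y < r ∧ g • z = z := by
  have hl0 : ∀ z, dist z y < r → dist (g • z) y < r := by
    intro z hz
    refine dist_lt_of ?_ hk
    rw [hs z y hz (by rw [dist_self]; exact hr)]
    have h0 : 0 ≤ dist z y := dist_nonneg
    nlinarith
  have hc : IsCompact (ball y r) := (IsUltrametricDist.isClosed_ball y r).isCompact
  have hcont : Continuous (fun z : X => dist z (g • z)) :=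
    continuous_id.dist (continuous_smul' h g)
  obtain ⟨z, hz, hmin⟩ := hc.exists_isMinOn ⟨y, mem_ball_self hr⟩ hcont.continuousOn
  refine ⟨z, hz, ?_⟩
  by_contra hne
  have h1 : 0 < dist z (g • z) := dist_pos.2 (fun h => hne h.symm)
  have h2 := isMinOn_iff.1 hmin (g • z) (hl0 z hz)
  have h3 := hs z (g • z) hz (hl0 z hz)
  rw [h3] at h2
  nlinarith

include hp in
/-- if the factors of the powers are not bounded below there is an attracting periodic point -/
theorem exists_attracting {c : Γ} (hun : ∀ ε : ℝ, 0 < ε → ∃ (n : ℕ) (x : X), lam h (c ^ n) x < ε) :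
    ∃ (k : ℕ) (z : X), 0 < k ∧ c ^ k • z = z ∧ lam h (c ^ k) z < 1 := by
  classical
  obtain ⟨r0, hr0, hs⟩ := exists_radius h hp c
  obtain ⟨K, hK1, hK⟩ := exists_bound h hp hr0 hs
  obtain ⟨F, hF⟩ := exists_net (X := X) hr0
  have hK0 : 0 < K := by linarith
  obtain ⟨n, x, hn⟩ := hun ((K⁻¹) ^ (F.card + 1)) (pow_pos (inv_pos.2 hK0) _)
  set u : ℕ → ℝ := fun i => lam h (c ^ i) x with hu
  have hu0 : u 0 = 1 := by rw [hu]; simp only [pow_zero]; exact lam_one h hp x
  have hpos : ∀ i, 0 < u i := fun i => lam_pos h _ _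
  have hKi : K⁻¹ ≤ 1 := inv_le_one_of_one_le₀ hK1
  have hKi0 : 0 < K⁻¹ := inv_pos.2 hK0
  have hstep : ∀ i, K⁻¹ * u i ≤ u (i + 1) := by
    intro i
    show K⁻¹ * lam h (c ^ i) x ≤ lam h (c ^ (i + 1)) x
    rw [lam_pow_succ h hp]
    apply mul_le_mul_of_nonneg_right _ (hpos i).le
    rw [inv_le_iff_one_le_mul₀' hK0]
    exact hK _
  -- the last times above the thresholds
  set I : ℕ → ℕ := fun q => Nat.findGreatest (fun i => (K⁻¹) ^ q ≤ u i) n with hI
  have h0 : ∀ q, (K⁻¹) ^ q ≤ u 0 := by
    intro q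
    rw [hu0]
    exact pow_le_one₀ hKi0.le hKi
  have hIn : ∀ q, I q ≤ n := fun q => Nat.findGreatest_le n
  have hIs : ∀ q, (K⁻¹) ^ q ≤ u (I q) := fun q =>
    Nat.findGreatest_spec (P := fun i => (K⁻¹) ^ q ≤ u i) (Nat.zero_le n) (h0 q)
  have hIg : ∀ q j, I q < j → j ≤ n → u j < (K⁻¹) ^ q := by
    intro q j hj hjn
    have := Nat.findGreatest_is_greatest (P := fun i => (K⁻¹) ^ q ≤ u i) hj hjn
    exact not_le.1 this
  have hlt : ∀ q, q ≤ F.card → I q < n := by
    intro q hq
    rcases (hIn q).lt_or_eq with h1 | h1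
    · exact h1
    · exfalso
      have h2 := hIs q
      rw [h1] at h2
      have h3 : (K⁻¹) ^ (F.card + 1) ≤ (K⁻¹) ^ q := pow_le_pow_of_le_one hKi0.le hKi (by omega)
      have h4 : u n < (K⁻¹) ^ (F.card + 1) := hn
      linarith
  have hne : ∀ q, q < F.card → I q < I (q + 1) := by
    intro q hq
    have h1 : I q ≤ I (q + 1) := by
      apply Nat.le_findGreatest (hIn q)
      exact (pow_le_pow_of_le_one hKi0.le hKi (by omega)).trans (hIs q)
    rcases h1.lt_or_eq with h2 | h2
    · exact h2
    · exfalso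
      have h3 := hlt q (by omega)
      have h4 := hIg (q + 1) (I q + 1) (by omega) (by omega)
      have h5 := hstep (I q)
      have h6 := hIs q
      rw [pow_succ] at h4
      nlinarith
  have hmono : ∀ q q', q < q' → q' ≤ F.card → I q < I q' := by
    intro q q' hq
    induction q' with
    | zero => omega
    | succ m ih =>
      intro hm
      rcases (Nat.lt_succ_iff.1 hq).lt_or_eq with h1 | h1
      · exact (ih h1 (by omega)).trans (hne m (by omega))
      · subst h1
        exact hne q (by omega)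
  choose f hf hfd using hF
  have hpig : ∃ a b, a < b ∧ b ≤ F.card ∧ f (c ^ I a • x) = f (c ^ I b • x) := by
    obtain ⟨a, ha, b, hb, hab, hfab⟩ := Finset.exists_ne_map_eq_of_card_lt_of_maps_to
      (s := Finset.range (F.card + 1)) (t := F) (f := fun q => f (c ^ I q • x))
      (by rw [Finset.card_range]; omega) (fun q _ => hf _)
    rw [Finset.mem_range] at ha hb
    rcases lt_or_gt_of_ne hab with h1 | h1
    · exact ⟨a, b, h1, by omega, hfab⟩
    · exact ⟨b, a, h1, by omega, hfab.symm⟩
  obtain ⟨a, b, hlt', hb, hfab⟩ := hpig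
  have hI1 := hmono a b hlt' (by omega)
  set y := c ^ I a • x with hy
  set k := I b - I a with hk
  have hk0 : 0 < k := by omega
  have hadd : ∀ t, lam h (c ^ t) y * u (I a) = u (t + I a) := fun t =>
    (lam_pow_add h hp c (I a) t x).symm
  have hless : ∀ t, 0 < t → t ≤ k → lam h (c ^ t) y < 1 := by
    intro t ht htk
    have h1 : u (t + I a) < (K⁻¹) ^ a := hIg a _ (by omega) (by have := hIn b; omega)
    have h2 := hIs a
    have h3 := hadd t
    have h4 := hpos (I a)
    by_contra h5
    push Not at h5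
    nlinarith
  have hS : SimOn (c ^ k) y r0 (lam h (c ^ k) y) := by
    apply simOn_pow h hp hs k _ hr0
    intro t ht
    rcases Nat.eq_zero_or_pos t with h1 | h1
    · rw [h1, pow_zero, lam_one h hp, one_mul]
    · have := hless t h1 ht.le
      nlinarith
  have hky : c ^ k • y = c ^ I b • x := by
    rw [hy, ← mul_smul, ← pow_add]
    congr 2
    omega
  have hd : dist (c ^ k • y) y < r0 := by
    rw [hky]
    have h1 := hfd (c ^ I b • x)
    have h2 := hfd (c ^ I a • x)
    rw [← hfab] at h1
    rw [dist_comm] at h2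
    exact dist_lt_of h1 h2
  obtain ⟨z, hz1, hz2⟩ := exists_fixed h hr0 hS (hless k hk0 le_rfl) hd
  exact ⟨k, z, hk0, hz2, by rw [hS.lam_eq h hp hr0 hz1]; exact hless k hk0 le_rfl⟩

end Pool.Agent.W2helper25.LS
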