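import Mathlib

/-!
# Groups of local similarities of compact ultrametric spaces: the local factors
-/

set_option autoImplicit false
set_option linter.unusedSectionVars false

namespace Pool.Agent.W2helper25.LS

open Filter Topology Set Metric

universe u v

/-- `Γ` acts on `X` by local similarities: near each point each element multiplies the distances by a
positive constant. -/
def LocSim (Γ : Type u) (X : Type v) [Group Γ] [MetricSpace X] [MulAction Γ X] : Prop :=
  ∀ (g : Γ) (x : X), ∃ r : ℝ, 0 < r ∧ ∃ l : ℝ, 0 < l ∧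
    ∀ y z : X, dist y x < r → dist z x < r → dist (g • y) (g • z) = l * dist y z

section

variable {Γ : Type u} {X : Type v} [Group Γ] [MetricSpace X] [MulAction Γ X]

/-- `g` is a similarity with factor `l` on the ball of radius `r` around `x` -/
def SimOn (g : Γ) (x : X) (r l : ℝ) : Prop :=
  ∀ y z : X, dist y x < r → dist z x < r → dist (g • y) (g • z) = l * dist y z

/-- the local factor -/
noncomputable def lam (h : LocSim Γ X) (g : Γ) (x : X) : ℝ := (h g x).choose_spec.2.choose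

variable (h : LocSim Γ X)

lemma lam_pos (g : Γ) (x : X) : 0 < lam h g x := (h g x).choose_spec.2.choose_spec.1

lemma exists_simOn (g : Γ) (x : X) : ∃ r : ℝ, 0 < r ∧ SimOn g x r (lam h g x) :=
  ⟨(h g x).choose, (h g x).choose_spec.1, (h g x).choose_spec.2.choose_spec.2⟩

lemma SimOn.mono {g : Γ} {x : X} {r r' l : ℝ} (hs : SimOn g x r l) (hr : r' ≤ r) :
    SimOn g x r' l := fun y z hy hz => hs y z (hy.trans_le hr) (hz.trans_le hr)

lemma continuous_smul' (h : LocSim Γ X) (g : Γ) : Continuous (fun x : X => g • x) := by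
  rw [continuous_iff_continuousAt]
  intro x
  obtain ⟨r, hr, l, hl, hs⟩ := h g x
  rw [Metric.continuousAt_iff]
  intro ε hε
  refine ⟨min r (ε / l), lt_min hr (div_pos hε hl), ?_⟩
  intro y hy
  have h1 := hs y x (hy.trans_le (min_le_left _ _)) (by rw [dist_self]; exact hr)
  rw [h1]
  have h2 : dist y x < ε / l := hy.trans_le (min_le_right _ _)
  rwa [lt_div_iff₀ hl, mul_comm] at h2

variable (hp : ∀ x : X, (𝓝[≠] x).NeBot)

include hp in
lemma exists_near (x : X) {r : ℝ} (hr : 0 < r) : ∃ y : X, y ≠ x ∧ dist y x < r := by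
  have := hp x
  have h1 : ∀ᶠ y in 𝓝[≠] x, y ∈ ball x r := nhdsWithin_le_nhds (ball_mem_nhds x hr)
  have h2 : ∀ᶠ y in 𝓝[≠] x, y ≠ x := eventually_mem_nhdsWithin
  obtain ⟨y, hy1, hy2⟩ := (h1.and h2).exists
  exact ⟨y, hy2, hy1⟩

include hp in
lemma SimOn.eq_lam {g : Γ} {x : X} {r l : ℝ} (hr : 0 < r) (hs : SimOn g x r l) :
    l = lam h g x := by
  obtain ⟨r', hr', hs'⟩ := exists_simOn h g x
  obtain ⟨y, hy, hyr⟩ := exists_near hp x (lt_min hr hr')
  have h1 := hs y x (hyr.trans_le (min_le_left _ _)) (by rw [dist_self]; exact hr)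
  have h2 := hs' y x (hyr.trans_le (min_le_right _ _)) (by rw [dist_self]; exact hr')
  rw [h1] at h2
  exact mul_right_cancel₀ (dist_ne_zero.2 hy) h2

include hp in
lemma lam_mul (g k : Γ) (x : X) : lam h (g * k) x = lam h g (k • x) * lam h k x := by
  obtain ⟨r, hr, hs⟩ := exists_simOn h k x
  obtain ⟨r', hr', hs'⟩ := exists_simOn h g (k • x)
  have hl := lam_pos h k x
  symm
  apply SimOn.eq_lam h hp (r := min r (r' / lam h k x)) (lt_min hr (div_pos hr' hl))
  intro y z hy hz
  have hx : dist x x < r := by rw [dist_self]; exact hr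
  have key : ∀ w : X, dist w x < min r (r' / lam h k x) → dist (k • w) (k • x) < r' := by
    intro w hw
    rw [hs w x (hw.trans_le (min_le_left _ _)) hx]
    have h2 : dist w x < r' / lam h k x := hw.trans_le (min_le_right _ _)
    rwa [lt_div_iff₀ hl, mul_comm] at h2
  rw [mul_smul, mul_smul, hs' _ _ (key y hy) (key z hz),
    hs y z (hy.trans_le (min_le_left _ _)) (hz.trans_le (min_le_left _ _)), mul_assoc]

include hp in
lemma lam_one (x : X) : lam h (1 : Γ) x = 1 := by
  symm
  apply SimOn.eq_lam h hp one_pos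
  intro y z _ _
  rw [one_smul, one_smul, one_mul]

include hp in
lemma lam_inv (g : Γ) (x : X) : lam h g⁻¹ (g • x) * lam h g x = 1 := by
  rw [← lam_mul h hp, inv_mul_cancel, lam_one h hp]

include hp in
lemma lam_pow_succ (c : Γ) (n : ℕ) (x : X) :
    lam h (c ^ (n + 1)) x = lam h c (c ^ n • x) * lam h (c ^ n) x := by
  rw [pow_succ', lam_mul h hp]

include hp in
lemma lam_pow_add (c : Γ) (n m : ℕ) (x : X) :
    lam h (c ^ (m + n)) x = lam h (c ^ m) (c ^ n • x) * lam h (c ^ n) x := by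
  rw [pow_add, lam_mul h hp]

variable [IsUltrametricDist X]

lemma dist_lt_of {x y z : X} {r : ℝ} (h1 : dist x y < r) (h2 : dist y z < r) : dist x z < r :=
  (dist_triangle_max x y z).trans_lt (max_lt h1 h2)

lemma SimOn.move {g : Γ} {x y : X} {r l : ℝ} (hs : SimOn g x r l) (hy : dist y x < r) :
    SimOn g y r l := fun z w hz hw => hs z w (dist_lt_of hz hy) (dist_lt_of hw hy)

include hp in
lemma SimOn.lam_eq {g : Γ} {x y : X} {r l : ℝ} (hr : 0 < r) (hs : SimOn g x r l)
    (hy : dist y x < r) : lam h g y = l := by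
  rw [← (hs.move hy).eq_lam h hp hr]

variable [CompactSpace X]

include hp in
/-- a uniform radius -/
lemma exists_radius (c : Γ) : ∃ r : ℝ, 0 < r ∧ ∀ x : X, SimOn c x r (lam h c x) := by
  choose R hR hs using fun x : X => exists_simOn h c x
  obtain ⟨δ, hδ, hc⟩ := lebesgue_number_lemma_of_metric (s := (univ : Set X)) isCompact_univ
    (c := fun x : X => ball x (R x)) (fun x => isOpen_ball)
    (fun x _ => mem_iUnion.2 ⟨x, mem_ball_self (hR x)⟩)
  refine ⟨δ, hδ, ?_⟩
  intro x
  obtain ⟨y, hy⟩ := hc x (mem_univ x)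
  have h1 : SimOn c x δ (lam h c y) := by
    intro z w hz hw
    exact hs y z w (hy hz) (hy hw)
  rwa [h1.eq_lam h hp hδ] at h1

omit [IsUltrametricDist X] in
lemma exists_net {r : ℝ} (hr : 0 < r) : ∃ F : Finset X, ∀ x : X, ∃ f ∈ F, dist x f < r := by
  obtain ⟨t, ht⟩ := (isCompact_univ (X := X)).elim_nhds_subcover (fun x => ball x r)
    (fun x _ => ball_mem_nhds x hr)
  refine ⟨t, fun x => ?_⟩
  obtain ⟨y, hy, hxy⟩ := mem_iUnion₂.1 (ht.2 (mem_univ x))
  exact ⟨y, hy, hxy⟩

include hp in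
lemma exists_bound {c : Γ} {r : ℝ} (hr : 0 < r) (hs : ∀ x : X, SimOn c x r (lam h c x)) :
    ∃ K : ℝ, 1 ≤ K ∧ ∀ x : X, 1 ≤ K * lam h c x := by
  obtain ⟨F, hF⟩ := exists_net (X := X) hr
  refine ⟨1 + ∑ f ∈ F, (lam h c f)⁻¹, ?_, ?_⟩
  · have : 0 ≤ ∑ f ∈ F, (lam h c f)⁻¹ :=
      Finset.sum_nonneg fun f _ => (inv_pos.2 (lam_pos h c f)).le
    linarith
  · intro x
    obtain ⟨f, hf, hxf⟩ := hF x
    have h1 : lam h c x = lam h c f := (hs f).lam_eq h hp hr hxf
    have h2 : (lam h c f)⁻¹ ≤ ∑ f ∈ F, (lam h c f)⁻¹ :=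
      Finset.single_le_sum (f := fun f => (lam h c f)⁻¹)
        (fun f _ => (inv_pos.2 (lam_pos h c f)).le) hf
    have h3 : (lam h c f)⁻¹ * lam h c f = 1 := inv_mul_cancel₀ (lam_pos h c f).ne'
    have h4 := lam_pos h c f
    rw [h1]
    nlinarith

include hp in
lemma simOn_pow {c : Γ} {r0 : ℝ} (hs : ∀ x : X, SimOn c x r0 (lam h c x)) {x : X} {r : ℝ}
    (n : ℕ) (hr : ∀ t < n, lam h (c ^ t) x * r ≤ r0) (hr' : 0 < r) :
    SimOn (c ^ n) x r (lam h (c ^ n) x) := by
  induction n with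
  | zero =>
    intro y z _ _
    rw [pow_zero, lam_one h hp, one_smul, one_smul, one_mul]
  | succ n ih =>
    intro y z hy hz
    have ih' := ih (fun t ht => hr t (by omega))
    have hx : dist x x < r := by rw [dist_self]; exact hr'
    have key : ∀ w : X, dist w x < r → dist (c ^ n • w) (c ^ n • x) < r0 := by
      intro w hw
      rw [ih' w x hw hx]
      exact (mul_lt_mul_of_pos_left hw (lam_pos h _ _)).trans_le (hr n (by omega))
    rw [lam_pow_succ h hp, pow_succ', mul_smul, mul_smul,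
      hs (c ^ n • x) _ _ (key y hy) (key z hz), ih' y z hy hz, mul_assoc]

end

end Pool.Agent.W2helper25.LS
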