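import Pool.Agent.W2helper25.LS.Fin

/-!
# Bounded elements: a power preserves all small balls and is isometric on them
-/

set_option autoImplicit false
set_option linter.unusedSectionVars false

namespace Pool.Agent.W2helper25.LS

open Filter Topology Set Metric

universe u v

variable {Γ : Type u} {X : Type v} [Group Γ] [MetricSpace X] [MulAction Γ X]
variable [IsUltrametricDist X]

/-- `g` preserves the ball of radius `r` around `x` and is isometric on it -/
def Pres (g : Γ) (x : X) (r : ℝ) : Prop := dist (g • x) x < r ∧ SimOn g x r 1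

lemma Pres.pow {g : Γ} {x : X} {r : ℝ} (hr : 0 < r) (hg : Pres g x r) (j : ℕ) :
    Pres (g ^ j) x r := by
  have hmap : ∀ y, dist y x < r → dist (g • y) x < r := by
    intro y hy
    refine dist_lt_of ?_ hg.1
    rw [hg.2 y x hy (by rw [dist_self]; exact hr), one_mul]
    exact hy
  induction j with
  | zero =>
    refine ⟨?_, ?_⟩
    · rw [pow_zero, one_smul, dist_self]
      exact hr
    · intro y z _ _
      rw [pow_zero, one_smul, one_smul, one_mul]
  | succ j ih =>
    refine ⟨?_, ?_⟩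
    · rw [pow_succ', mul_smul]
      exact hmap _ ih.1
    · intro y z hy hz
      rw [pow_succ, mul_smul, mul_smul, ih.2 _ _ (hmap y hy) (hmap z hz), hg.2 y z hy hz, one_mul]

lemma Pres.move {g : Γ} {x y : X} {r : ℝ} (hr : 0 < r) (hg : Pres g x r) (hy : dist y x < r) :
    Pres g y r := by
  refine ⟨?_, hg.2.move hy⟩
  refine dist_lt_of ?_ (dist_lt_of hg.1 (by rw [dist_comm]; exact hy))
  rw [hg.2 y x hy (by rw [dist_self]; exact hr), one_mul]
  exact hy

variable [CompactSpace X]
variable (h : LocSim Γ X) (hp : ∀ x : X, (𝓝[≠] x).NeBot)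

include hp in
lemma Bdd.inv {c : Γ} (hb : Bdd h c) : Bdd h c⁻¹ := by
  obtain ⟨M, hM, hb⟩ := hb
  refine ⟨M, hM, fun n x => ?_⟩
  have h1 := lam_inv h hp (c ^ n) ((c ^ n)⁻¹ • x)
  rw [smul_inv_smul] at h1
  obtain ⟨h2, h3⟩ := hb n ((c ^ n)⁻¹ • x)
  have h4 := lam_pos h (c ^ n) ((c ^ n)⁻¹ • x)
  have h5 : lam h (c⁻¹ ^ n) x = (lam h (c ^ n) ((c ^ n)⁻¹ • x))⁻¹ := by
    rw [inv_pow]
    exact eq_inv_of_mul_eq_one_left h1
  rw [h5]
  exact ⟨inv_anti₀ h4 h3, (inv_le_comm₀ h4 hM).2 h2⟩

include hp in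
/-- a power of a bounded element preserves all balls of some small radius isometrically -/
theorem Bdd.exists_pres {c : Γ} (hb : Bdd h c) {r2 : ℝ} (hr2 : 0 < r2) :
    ∃ N : ℕ, 0 < N ∧ ∃ r : ℝ, 0 < r ∧ r ≤ r2 ∧ ∀ x : X, Pres (c ^ N) x r := by
  classical
  obtain ⟨M, hM, hb'⟩ := id hb
  obtain ⟨M', hM', hbi⟩ := hb.inv h hp
  obtain ⟨ra, hra, hsa⟩ := exists_radius h hp c
  obtain ⟨rb, hrb, hsb⟩ := exists_radius h hp c⁻¹
  set r1 : ℝ := min r2 (min (ra / M) (rb / M')) with hr1
  have hr1p : 0 < r1 := lt_min hr2 (lt_min (div_pos hra hM) (div_pos hrb hM'))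
  have hS : ∀ (n : ℕ) (x : X), SimOn (c ^ n) x r1 (lam h (c ^ n) x) := by
    intro n x
    apply simOn_pow h hp hsa _ _ hr1p
    intro t _
    have h1 := (hb' t x).2
    have h2 : r1 ≤ ra / M := (min_le_right _ _).trans (min_le_left _ _)
    calc lam h (c ^ t) x * r1 ≤ M * (ra / M) := mul_le_mul h1 h2 hr1p.le hM.le
      _ = ra := by field_simp
  have hSi : ∀ (n : ℕ) (x : X), SimOn (c⁻¹ ^ n) x r1 (lam h (c⁻¹ ^ n) x) := by
    intro n x
    apply simOn_pow h hp hsb _ _ hr1p
    intro t _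
    have h1 := (hbi t x).2
    have h2 : r1 ≤ rb / M' := (min_le_right _ _).trans (min_le_right _ _)
    calc lam h (c⁻¹ ^ t) x * r1 ≤ M' * (rb / M') := mul_le_mul h1 h2 hr1p.le hM'.le
      _ = rb := by field_simp
  have key : ∀ x : X, ∃ k : ℕ, 0 < k ∧ Pres (c ^ k) x r1 := by
    intro x
    obtain ⟨y, hyx, hyr⟩ := exists_near hp x hr1p
    have hδ : 0 < dist y x := dist_pos.2 hyx
    set ρ : ℝ := min (min r1 (r1 / M')) (dist y x / M) with hρ
    have hρp : 0 < ρ := lt_min (lt_min hr1p (div_pos hr1p hM')) (div_pos hδ hM)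
    obtain ⟨F, hF⟩ := exists_net (X := X) hρp
    choose f hf hfd using hF
    have hpig : ∃ n m : ℕ, n < m ∧ f (c ^ n • x) = f (c ^ m • x) ∧
        f (c ^ n • y) = f (c ^ m • y) := by
      obtain ⟨a, ha, b, hb, hab, hfab⟩ := Finset.exists_ne_map_eq_of_card_lt_of_maps_to
        (s := Finset.range ((F ×ˢ F).card + 1)) (t := F ×ˢ F)
        (f := fun q => (f (c ^ q • x), f (c ^ q • y)))
        (by rw [Finset.card_range]; omega) (fun q _ => Finset.mem_product.2 ⟨hf _, hf _⟩)
      rw [Prod.mk.injEq] at hfab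
      rcases lt_or_gt_of_ne hab with h1 | h1
      · exact ⟨a, b, h1, hfab⟩
      · exact ⟨b, a, h1, hfab.1.symm, hfab.2.symm⟩
    obtain ⟨n, m, hnm, h1, h2⟩ := hpig
    have hx1 : dist (c ^ n • x) (c ^ m • x) < ρ := by
      have e1 := hfd (c ^ n • x)
      have e2 := hfd (c ^ m • x)
      rw [h1] at e1
      rw [dist_comm] at e2
      exact dist_lt_of e1 e2
    have hy1 : dist (c ^ n • y) (c ^ m • y) < ρ := by
      have e1 := hfd (c ^ n • y)
      have e2 := hfd (c ^ m • y)
      rw [h2] at e1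
      rw [dist_comm] at e2
      exact dist_lt_of e1 e2
    have hxr : dist x x < r1 := by rw [dist_self]; exact hr1p
    have en := hS n x y x hyr hxr
    have em := hS m x y x hyr hxr
    have hρM : ρ ≤ dist y x / M := min_le_right _ _
    have hlow : ∀ t : ℕ, dist y x / M ≤ lam h (c ^ t) x * dist y x := by
      intro t
      rw [div_eq_inv_mul]
      exact mul_le_mul_of_nonneg_right (hb' t x).1 hδ.le
    -- the factors agree
    have hle : ∀ a b : ℕ, dist (c ^ a • x) (c ^ b • x) < ρ → dist (c ^ a • y) (c ^ b • y) < ρ →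
        dist (c ^ a • y) (c ^ a • x) ≤ dist (c ^ b • y) (c ^ b • x) := by
      intro a b ha hb
      have e1 : dist (c ^ a • y) (c ^ a • x) ≤
          max (dist (c ^ a • y) (c ^ b • y)) (dist (c ^ b • y) (c ^ a • x)) :=
        dist_triangle_max _ _ _
      have e2 : dist (c ^ b • y) (c ^ a • x) ≤
          max (dist (c ^ b • y) (c ^ b • x)) (dist (c ^ b • x) (c ^ a • x)) :=
        dist_triangle_max _ _ _
      have e3 : dist (c ^ a • y) (c ^ a • x) = lam h (c ^ a) x * dist y x := hS a x y x hyr hxr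
      have e4 := hlow a
      rw [dist_comm (c ^ b • x)] at e2
      rcases le_max_iff.1 e1 with e5 | e5
      · linarith
      · rcases le_max_iff.1 e2 with e6 | e6
        · exact e5.trans e6
        · linarith
    have heq : lam h (c ^ n) x = lam h (c ^ m) x := by
      have e1 := hle n m hx1 hy1
      have e2 := hle m n (by rw [dist_comm]; exact hx1) (by rw [dist_comm]; exact hy1)
      rw [en, em] at e1 e2
      exact mul_right_cancel₀ hδ.ne' (le_antisymm e1 e2)
    refine ⟨m - n, by omega, ?_⟩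
    have hk : c⁻¹ ^ n • c ^ m • x = c ^ (m - n) • x := by
      rw [← mul_smul]
      congr 1
      rw [inv_pow, inv_mul_eq_iff_eq_mul, ← pow_add]
      congr 1
      omega
    have hk0 : c⁻¹ ^ n • c ^ n • x = x := by
      rw [inv_pow, inv_smul_smul]
    have hd : dist (c ^ (m - n) • x) x < r1 := by
      have e1 := hSi n (c ^ n • x) (c ^ m • x) (c ^ n • x)
        (by rw [dist_comm]; exact hx1.trans_le ((min_le_left _ _).trans (min_le_left _ _)))
        (by rw [dist_self]; exact hr1p)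
      rw [hk, hk0] at e1
      rw [e1]
      have e2 := (hbi n (c ^ n • x)).2
      have e3 : dist (c ^ m • x) (c ^ n • x) < r1 / M' := by
        rw [dist_comm]
        exact hx1.trans_le ((min_le_left _ _).trans (min_le_right _ _))
      calc lam h (c⁻¹ ^ n) (c ^ n • x) * dist (c ^ m • x) (c ^ n • x)
          < M' * (r1 / M') := mul_lt_mul' e2 e3 dist_nonneg hM'
        _ = r1 := by field_simp
    refine ⟨hd, ?_⟩
    have e1 : lam h (c ^ m) x = lam h (c ^ n) (c ^ (m - n) • x) * lam h (c ^ (m - n)) x := by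
      rw [← lam_pow_add h hp]
      congr 2
      omega
    have e2 : lam h (c ^ n) (c ^ (m - n) • x) = lam h (c ^ n) x := (hS n x).lam_eq h hp hr1p hd
    have e3 : lam h (c ^ (m - n)) x = 1 := by
      rw [e2, ← heq] at e1
      have := lam_pos h (c ^ n) x
      exact (mul_left_cancel₀ this.ne' (by rw [mul_one]; exact e1)).symm
    have e4 := hS (m - n) x
    rwa [e3] at e4
  choose k hk hpk using key
  obtain ⟨F, hF⟩ := exists_net (X := X) hr1p
  refine ⟨∏ f ∈ F, k f, Finset.prod_pos fun f _ => hk f, r1, hr1p, min_le_left _ _, ?_⟩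
  intro x
  obtain ⟨f, hf, hxf⟩ := hF x
  obtain ⟨m, hm⟩ := Finset.dvd_prod_of_mem k hf
  rw [hm, pow_mul]
  exact ((hpk f).pow hr1p m).move hr1p hxf

/-- the elements which preserve a small ball around a point isometrically have finite order near the
point -/
def TorsionGerms (Γ : Type u) (X : Type v) [Group Γ] [MetricSpace X] [MulAction Γ X] : Prop :=
  ∀ (g : Γ) (x : X) (r : ℝ), 0 < r → dist (g • x) x < r →
    (∀ y z : X, dist y x < r → dist z x < r → dist (g • y) (g • z) = dist y z) →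
    ∃ n : ℕ, 0 < n ∧ ∃ s : ℝ, 0 < s ∧ ∀ y : X, dist y x < s → g ^ n • y = y

include hp in
/-- bounded elements have finite order if the germs are torsion -/
theorem Bdd.finOrder {c : Γ} (hb : Bdd h c) (ht : TorsionGerms Γ X)
    (hf : ∀ g : Γ, (∀ x : X, g • x = x) → g = 1) : IsOfFinOrder c := by
  classical
  obtain ⟨N, hN, r, hr, _, hP⟩ := hb.exists_pres h hp one_pos
  choose n hn s hs hfix using fun x : X => ht (c ^ N) x r hr (hP x).1
    (fun y z hy hz => by rw [(hP x).2 y z hy hz, one_mul])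
  obtain ⟨t, ht'⟩ := (isCompact_univ (X := X)).elim_nhds_subcover (fun x => ball x (s x))
    (fun x _ => ball_mem_nhds x (hs x))
  rw [isOfFinOrder_iff_pow_eq_one]
  refine ⟨N * ∏ x ∈ t, n x, Nat.mul_pos hN (Finset.prod_pos fun x _ => hn x), ?_⟩
  apply hf
  intro y
  obtain ⟨x, hx, hxy⟩ := mem_iUnion₂.1 (ht'.2 (mem_univ y))
  obtain ⟨m, hm⟩ := Finset.dvd_prod_of_mem n hx
  rw [hm, pow_mul, pow_mul]
  exact pow_smul_of_fixed (hfix x y hxy) m

end Pool.Agent.W2helper25.LS
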