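import Pool.Agent.W2helper25.LS.Bd
import Pool.Agent.H26R2.Bass.Main

/-!
# Unbounded elements are not conjugate to proper powers
-/

set_option autoImplicit false
set_option linter.unusedSectionVars false

namespace Pool.Agent.W2helper25.LS

open Filter Topology Set Metric

universe u v w

section

variable {Γ : Type u} {X : Type v} [Group Γ] [MetricSpace X] [MulAction Γ X]
variable [IsUltrametricDist X] [CompactSpace X]
variable (h : LocSim Γ X) (hp : ∀ x : X, (𝓝[≠] x).NeBot)

/-- the sum of the logarithms of the factors at the attracting periodic points -/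
noncomputable def attSum (c : Γ) : ℝ :=
  ∑ x ∈ (att_finite h hp c).toFinset, Real.log (lam h c x)

lemma attHom_self (c : Γ) :
    Multiplicative.toAdd (attHom h hp c ⟨c, Subgroup.mem_centralizer_singleton_iff.2 rfl⟩) =
      attSum h hp c := rfl

include hp in
lemma att_pow (c : Γ) {m : ℕ} (hm : 0 < m) : Att h (c ^ m) = Att h c := by
  ext x
  constructor
  · rintro ⟨k, hk, hkx, hkl⟩
    exact ⟨m * k, Nat.mul_pos hm hk, by rw [pow_mul]; exact hkx, by rw [pow_mul]; exact hkl⟩
  · rintro ⟨k, hk, hkx, hkl⟩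
    have h1 : (c ^ m) ^ k = (c ^ k) ^ m := by rw [← pow_mul, ← pow_mul, mul_comm]
    refine ⟨k, hk, ?_, ?_⟩
    · rw [h1]
      exact pow_smul_of_fixed hkx m
    · rw [h1, lam_pow_of_fixed h hp hkx]
      exact pow_lt_one₀ (lam_pos h _ _).le hkl (by omega)

lemma attSum_pow (c : Γ) {m : ℕ} (hm : 0 < m) : attSum h hp (c ^ m) = m * attSum h hp c := by
  have h1 : attSum h hp (c ^ m) =
      ∑ x ∈ (att_finite h hp c).toFinset, Real.log (lam h (c ^ m) x) := by
    unfold attSum
    congr 1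
    ext x
    rw [Set.Finite.mem_toFinset, Set.Finite.mem_toFinset, att_pow h hp c hm]
  rw [h1]
  have h2 : Multiplicative.toAdd (attHom h hp c
      ((⟨c, Subgroup.mem_centralizer_singleton_iff.2 rfl⟩ : Subgroup.centralizer {c}) ^ m)) =
      ∑ x ∈ (att_finite h hp c).toFinset, Real.log (lam h (c ^ m) x) := rfl
  rw [← h2, map_pow, toAdd_pow, attHom_self, nsmul_eq_mul]

include hp in
lemma att_conj (c g : Γ) (x : X) : g • x ∈ Att h (g * c * g⁻¹) ↔ x ∈ Att h c := by
  have hk : ∀ k : ℕ, (g * c * g⁻¹) ^ k • (g • x) = g • (c ^ k • x) := by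
    intro k
    rw [conj_pow, mul_smul, mul_smul, inv_smul_smul]
  have hl : ∀ k : ℕ, c ^ k • x = x → lam h ((g * c * g⁻¹) ^ k) (g • x) = lam h (c ^ k) x := by
    intro k hkx
    rw [conj_pow, lam_mul h hp, lam_mul h hp, inv_smul_smul, hkx]
    have h1 := lam_inv h hp g x
    have h2 := lam_pos h g x
    calc lam h g x * lam h (c ^ k) x * lam h g⁻¹ (g • x)
        = lam h (c ^ k) x * (lam h g⁻¹ (g • x) * lam h g x) := by ring
      _ = lam h (c ^ k) x := by rw [h1, mul_one]
  constructor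
  · rintro ⟨k, hk0, hkx, hkl⟩
    rw [hk] at hkx
    have hkx' : c ^ k • x = x := smul_left_cancel g hkx
    exact ⟨k, hk0, hkx', by rw [← hl k hkx']; exact hkl⟩
  · rintro ⟨k, hk0, hkx, hkl⟩
    exact ⟨k, hk0, by rw [hk, hkx], by rw [hl k hkx]; exact hkl⟩

lemma attSum_conj (c g : Γ) : attSum h hp (g * c * g⁻¹) = attSum h hp c := by
  have hmem : ∀ x, x ∈ (att_finite h hp c).toFinset ↔ x ∈ Att h c :=
    fun x => Set.Finite.mem_toFinset _
  have h1 : attSum h hp (g * c * g⁻¹) =
      ∑ x ∈ (att_finite h hp c).toFinset, Real.log (lam h (g * c * g⁻¹) (g • x)) := by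
    unfold attSum
    symm
    apply Finset.sum_nbij' (fun x => g • x) (fun x => g⁻¹ • x)
    · intro x hx
      rw [Set.Finite.mem_toFinset] at hx ⊢
      exact (att_conj h hp c g x).2 hx
    · intro x hx
      rw [Set.Finite.mem_toFinset] at hx ⊢
      apply (att_conj h hp c g _).1
      rwa [smul_inv_smul]
    · intro x _
      exact inv_smul_smul _ _
    · intro x _
      exact smul_inv_smul _ _
    · intro x _
      rfl
  have h2 : ∀ x : X, Real.log (lam h (g * c * g⁻¹) (g • x)) =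
      Real.log (lam h g (c • x)) + Real.log (lam h c x) - Real.log (lam h g x) := by
    intro x
    have h3 := lam_inv h hp g x
    have h4 : lam h g⁻¹ (g • x) = (lam h g x)⁻¹ := eq_inv_of_mul_eq_one_left h3
    rw [lam_mul h hp, lam_mul h hp, inv_smul_smul, h4, Real.log_mul
      (mul_ne_zero (lam_pos h _ _).ne' (lam_pos h _ _).ne') (inv_ne_zero (lam_pos h _ _).ne'),
      Real.log_mul (lam_pos h _ _).ne' (lam_pos h _ _).ne', Real.log_inv]
    ring
  have h3 : ∑ x ∈ (att_finite h hp c).toFinset, Real.log (lam h g (c • x)) =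
      ∑ x ∈ (att_finite h hp c).toFinset, Real.log (lam h g x) := by
    apply Finset.sum_nbij' (fun x => c • x) (fun x => c⁻¹ • x)
    · intro x hx
      rw [Set.Finite.mem_toFinset] at hx ⊢
      exact att_smul h hp rfl hx
    · intro x hx
      rw [Set.Finite.mem_toFinset] at hx ⊢
      exact (cent_smul h hp (Subgroup.inv_mem _
        (Subgroup.mem_centralizer_singleton_iff.2 rfl)) x).2 hx
    · intro x _
      exact inv_smul_smul _ _
    · intro x _
      exact smul_inv_smul _ _
    · intro x _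
      rfl
  rw [h1, Finset.sum_congr rfl (fun x _ => h2 x), Finset.sum_sub_distrib, Finset.sum_add_distrib, h3]
  unfold attSum
  ring

include hp in
lemma not_conj_of_att {c : Γ} (hne : (Att h c).Nonempty) {e : ℕ} (he : 2 ≤ e) :
    ¬ IsConj c (c ^ e) := by
  intro hc
  obtain ⟨g, hg⟩ := isConj_iff.1 hc
  have h1 := attSum_conj h hp c g
  rw [hg, attSum_pow h hp c (by omega)] at h1
  have h2 : attSum h hp c ≠ 0 := by
    intro h3
    apply attHom_ne h hp hne
    apply Multiplicative.toAdd.injective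
    rw [attHom_self, h3]
    rfl
  have h3 : (e : ℝ) = 1 := mul_right_cancel₀ h2 (by rw [one_mul]; exact h1)
  have h4 : (2 : ℝ) ≤ e := by exact_mod_cast he
  linarith

include hp in
/-- unbounded elements have attracting or repelling periodic points -/
theorem att_or_bdd (c : Γ) : Bdd h c ∨ (Att h c).Nonempty ∨ (Att h c⁻¹).Nonempty := by
  by_cases h1 : ∀ ε : ℝ, 0 < ε → ∃ (n : ℕ) (x : X), lam h (c ^ n) x < ε
  · obtain ⟨k, z, hk, hkz, hkl⟩ := exists_attracting h hp h1
    exact Or.inr (Or.inl ⟨z, k, hk, hkz, hkl⟩)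
  by_cases h2 : ∀ ε : ℝ, 0 < ε → ∃ (n : ℕ) (x : X), lam h (c⁻¹ ^ n) x < ε
  · obtain ⟨k, z, hk, hkz, hkl⟩ := exists_attracting h hp h2
    exact Or.inr (Or.inr ⟨z, k, hk, hkz, hkl⟩)
  · left
    push Not at h1 h2
    obtain ⟨ε1, hε1, h1⟩ := h1
    obtain ⟨ε2, hε2, h2⟩ := h2
    refine ⟨ε1⁻¹ + ε2⁻¹, by positivity, ?_⟩
    intro n x
    have hle1 : (ε1⁻¹ + ε2⁻¹)⁻¹ ≤ ε1 := by
      rw [inv_le_comm₀ (by positivity) hε1]
      have := inv_pos.2 hε2
      linarith
    refine ⟨hle1.trans (h1 n x), ?_⟩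
    have h3 := h2 n (c ^ n • x)
    rw [inv_pow] at h3
    have h4 := lam_inv h hp (c ^ n) x
    have h5 := lam_pos h (c ^ n) x
    have h6 : lam h (c ^ n) x ≤ ε2⁻¹ := by
      rw [le_inv_comm₀ h5 hε2]
      rw [← eq_inv_of_mul_eq_one_left h4]
      exact h3
    have := inv_pos.2 hε1
    linarith

include hp in
/-- unbounded elements are not conjugate to proper powers -/
theorem not_conj {c : Γ} (hc : ¬ Bdd h c) {e : ℕ} (he : 2 ≤ e) : ¬ IsConj c (c ^ e) := by
  rcases att_or_bdd h hp c with h1 | h1 | h1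
  · exact absurd h1 hc
  · exact not_conj_of_att h hp h1 he
  · intro h2
    apply not_conj_of_att h hp h1 he
    obtain ⟨g, hg⟩ := isConj_iff.1 h2
    apply isConj_iff.2
    exact ⟨g, by rw [inv_pow, ← hg]; group⟩

end

open Pool.Agent.H26R2.Bass (Good bass_of_local)
open Pool.Agent.H26R2.IdemLI (AlmostDiv)

/-- the criterion for elements which are not conjugate to proper powers -/
theorem good_of_not_conj (R : Type v) [CommRing R] [IsDomain R] {H : Type u} [Group H] {c : H}
    (hc : ∀ e : ℕ, 2 ≤ e → ¬ IsConj c (c ^ e)) : Good R c := by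
  rcases CharP.exists R with ⟨p, hp⟩
  by_cases h0 : p = 0
  · subst h0
    right
    right
    refine ⟨CharP.charP_to_charZero R, ?_⟩
    rintro ⟨m, J, hm, hJ, hmJ⟩
    refine hc ((m + 1) ^ J) ?_ (hmJ (m + 1) (by simp))
    calc 2 ≤ m + 1 := by omega
      _ = (m + 1) ^ 1 := (pow_one _).symm
      _ ≤ (m + 1) ^ J := Nat.pow_le_pow_right (by omega) hJ
  · right
    left
    have hpp : p.Prime := (CharP.char_is_prime_or_zero R p).resolve_right h0
    refine ⟨p, hpp, ?_, ?_⟩
    · rw [CharP.cast_eq_zero]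
      exact not_isUnit_zero
    · intro j hj
      apply hc
      calc 2 ≤ p := hpp.two_le
        _ = p ^ 1 := (pow_one _).symm
        _ ≤ p ^ j := Nat.pow_le_pow_right hpp.pos hj

/-- `c` is detected: a subgroup of finite index acts on a compact perfect ultrametric space by local
similarities such that the factors of the powers of `c` in this subgroup are unbounded -/
def Stretched (H : Type u) [Group H] (c : H) : Prop :=
  ∃ (N : Subgroup H) (_ : N.FiniteIndex) (X : Type w) (_ : MetricSpace X) (_ : IsUltrametricDist X)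
    (_ : CompactSpace X) (_ : MulAction N X) (h : LocSim N X), (∀ x : X, (𝓝[≠] x).NeBot) ∧
      ∃ (m : ℕ) (hm : c ^ m ∈ N), ¬ Bdd h ⟨c ^ m, hm⟩

lemma Stretched.not_conj {H : Type u} [Group H] {c : H} (hc : Stretched.{u, w} H c) {e : ℕ}
    (he : 2 ≤ e) : ¬ IsConj c (c ^ e) := by
  obtain ⟨N, hN, X, i1, i2, i3, i4, h, hp, m, hm, hb⟩ := hc
  intro hconj
  obtain ⟨g, hg⟩ := isConj_iff.1 hconj
  obtain ⟨k, hk0, _, hk⟩ := Subgroup.exists_pow_mem_of_index_ne_zero
    (Subgroup.FiniteIndex.index_ne_zero (H := N)) g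
  have hgk : ∀ j : ℕ, g ^ j * c * (g ^ j)⁻¹ = c ^ e ^ j := by
    intro j
    induction j with
    | zero => simp
    | succ j ih =>
      have h1 : g ^ (j + 1) * c * (g ^ (j + 1))⁻¹ = g * (g ^ j * c * (g ^ j)⁻¹) * g⁻¹ := by
        rw [pow_succ']
        group
      rw [h1, ih, ← conj_pow, hg, ← pow_mul, pow_succ', mul_comm]
  apply LS.not_conj h hp hb (e := e ^ k)
  · calc 2 ≤ e := he
      _ = e ^ 1 := (pow_one _).symm
      _ ≤ e ^ k := Nat.pow_le_pow_right (by omega) hk0
  · apply isConj_iff.2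
    refine ⟨⟨g ^ k, hk⟩, ?_⟩
    apply Subtype.ext
    show g ^ k * c ^ m * (g ^ k)⁻¹ = (c ^ m) ^ e ^ k
    rw [← conj_pow, hgk, ← pow_mul, ← pow_mul, mul_comm]

end Pool.Agent.W2helper25.LS
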