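import Pool.Agent.W2helper25.LS.Attr

/-!
# The attracting periodic points form a finite set; the homomorphism on the centralizer
-/

set_option autoImplicit false
set_option linter.unusedSectionVars false

namespace Pool.Agent.W2helper25.LS

open Filter Topology Set Metric

universe u v

variable {Γ : Type u} {X : Type v} [Group Γ] [MetricSpace X] [MulAction Γ X]
variable [IsUltrametricDist X] [CompactSpace X]
variable (h : LocSim Γ X) (hp : ∀ x : X, (𝓝[≠] x).NeBot)

/-- the attracting periodic points -/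
def Att (h : LocSim Γ X) (c : Γ) : Set X :=
  {x | ∃ k : ℕ, 0 < k ∧ c ^ k • x = x ∧ lam h (c ^ k) x < 1}

include hp in
lemma lam_pow_of_fixed {g : Γ} {x : X} (hx : g • x = x) (m : ℕ) :
    lam h (g ^ m) x = lam h g x ^ m := by
  induction m with
  | zero => rw [pow_zero, pow_zero, lam_one h hp]
  | succ m ih => rw [pow_succ, lam_mul h hp, hx, ih, pow_succ]

lemma pow_smul_of_fixed {g : Γ} {x : X} (hx : g • x = x) (m : ℕ) : g ^ m • x = x := by
  induction m with
  | zero => rw [pow_zero, one_smul]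
  | succ m ih => rw [pow_succ, mul_smul, hx, ih]

include hp in
/-- the good starting points -/
lemma sep {c : Γ} {r0 : ℝ} (hr0 : 0 < r0) (hs : ∀ x : X, SimOn c x r0 (lam h c x)) {y y' : X}
    (h1 : ∃ k : ℕ, 0 < k ∧ c ^ k • y = y ∧ lam h (c ^ k) y < 1)
    (h2 : ∀ t : ℕ, lam h (c ^ t) y ≤ 1)
    (h3 : ∃ k : ℕ, 0 < k ∧ c ^ k • y' = y') (hd : dist y' y < r0) : y' = y := by
  obtain ⟨k, hk, hky, hkl⟩ := h1
  obtain ⟨k', hk', hky'⟩ := h3
  have hS : SimOn (c ^ (k * k')) y r0 (lam h (c ^ (k * k')) y) := by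
    apply simOn_pow h hp hs _ _ hr0
    intro t _
    have := h2 t
    nlinarith
  have e1 : c ^ (k * k') • y = y := by
    rw [pow_mul]
    exact pow_smul_of_fixed hky k'
  have e2 : c ^ (k * k') • y' = y' := by
    rw [mul_comm, pow_mul]
    exact pow_smul_of_fixed hky' k
  have e3 := hS y' y hd (by rw [dist_self]; exact hr0)
  rw [e1, e2, pow_mul, lam_pow_of_fixed h hp hky] at e3
  have e4 : lam h (c ^ k) y ^ k' < 1 := pow_lt_one₀ (lam_pos h _ _).le hkl (by omega)
  by_contra hne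
  have e5 : 0 < dist y' y := dist_pos.2 hne
  nlinarith

include hp in
/-- there are only finitely many attracting periodic points -/
theorem att_finite (c : Γ) : (Att h c).Finite := by
  classical
  obtain ⟨r0, hr0, hs⟩ := exists_radius h hp c
  obtain ⟨F, hF⟩ := exists_net (X := X) hr0
  choose f hf hfd using hF
  set P0 : Set X := {y | (∃ k : ℕ, 0 < k ∧ c ^ k • y = y ∧ lam h (c ^ k) y < 1) ∧
    ∀ t : ℕ, lam h (c ^ t) y ≤ 1} with hP0
  have hfin : P0.Finite := by
    apply Set.Finite.of_injOn (t := (F : Set X)) (f := f) (fun y _ => hf y) _ F.finite_toSet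
    intro y hy y' hy' hyy
    obtain ⟨k, hk, hky, _⟩ := hy.1
    apply sep h hp hr0 hs hy'.1 hy'.2 ⟨k, hk, hky⟩
    have h1 := hfd y
    have h2 := hfd y'
    rw [hyy] at h1
    rw [dist_comm] at h2
    exact dist_lt_of h1 h2
  have horb : ∀ y ∈ P0, {z : X | ∃ j : ℕ, z = c ^ j • y}.Finite := by
    rintro y ⟨⟨k, hk, hky, _⟩, _⟩
    apply ((Finset.range k).image (fun j => c ^ j • y)).finite_toSet.subset
    rintro z ⟨j, rfl⟩
    rw [Finset.coe_image]
    refine ⟨j % k, by simpa using Nat.mod_lt j hk, ?_⟩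
    show c ^ (j % k) • y = c ^ j • y
    conv_rhs => rw [← Nat.mod_add_div j k, pow_add, mul_smul, pow_mul, pow_smul_of_fixed hky]
  apply (hfin.biUnion horb).subset
  rintro x ⟨k, hk, hkx, hkl⟩
  obtain ⟨i, hi, himax⟩ := Finset.exists_max_image (Finset.range k)
    (fun i => lam h (c ^ i) x) ⟨0, by simpa using hk⟩
  rw [Finset.mem_range] at hi
  rw [mem_iUnion₂]
  have hback : x = c ^ (k - i) • (c ^ i • x) := by
    rw [← mul_smul, ← pow_add, Nat.sub_add_cancel hi.le, hkx]
  have hall : ∀ n : ℕ, lam h (c ^ n) x ≤ lam h (c ^ i) x := by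
    intro n
    have h1 : lam h (c ^ n) x = lam h (c ^ (n % k)) x * lam h (c ^ k) x ^ (n / k) := by
      conv_lhs => rw [← Nat.mod_add_div n k]
      rw [lam_pow_add h hp, pow_mul, pow_smul_of_fixed hkx, lam_pow_of_fixed h hp hkx]
    rw [h1]
    have h2 : lam h (c ^ k) x ^ (n / k) ≤ 1 := pow_le_one₀ (lam_pos h _ _).le hkl.le
    have h3 := himax (n % k) (by simpa using Nat.mod_lt n hk)
    have h4 := lam_pos h (c ^ (n % k)) x
    nlinarith
  refine ⟨c ^ i • x, ⟨⟨k, hk, ?_, ?_⟩, ?_⟩, ⟨k - i, hback⟩⟩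
  · rw [← mul_smul, ← pow_add, add_comm, pow_add, mul_smul, hkx]
  · have h1 : lam h (c ^ k) (c ^ i • x) * lam h (c ^ i) x =
        lam h (c ^ i) x * lam h (c ^ k) x := by
      rw [← lam_pow_add h hp, add_comm, lam_pow_add h hp, hkx]
    have h2 := lam_pos h (c ^ i) x
    have h3 : lam h (c ^ k) (c ^ i • x) = lam h (c ^ k) x := by
      apply mul_right_cancel₀ h2.ne'
      rw [h1, mul_comm]
    rw [h3]
    exact hkl
  · intro t
    have h1 : lam h (c ^ t) (c ^ i • x) * lam h (c ^ i) x = lam h (c ^ (t + i)) x :=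
      (lam_pow_add h hp c i t x).symm
    have h2 := hall (t + i)
    have h3 := lam_pos h (c ^ i) x
    by_contra h4
    push Not at h4
    nlinarith

include hp in
lemma att_smul {c g : Γ} (hg : g * c = c * g) {x : X} (hx : x ∈ Att h c) : g • x ∈ Att h c := by
  obtain ⟨k, hk, hkx, hkl⟩ := hx
  have hgk : c ^ k * g = g * c ^ k := ((show Commute g c from hg).pow_right k).eq.symm
  refine ⟨k, hk, ?_, ?_⟩
  · rw [← mul_smul, hgk, mul_smul, hkx]
  · have h1 : lam h (c ^ k) (g • x) * lam h g x = lam h g x * lam h (c ^ k) x := by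
      rw [← lam_mul h hp, hgk, lam_mul h hp, hkx]
    have h2 := lam_pos h g x
    have h3 : lam h (c ^ k) (g • x) = lam h (c ^ k) x := by
      apply mul_right_cancel₀ h2.ne'
      rw [h1, mul_comm]
    rw [h3]
    exact hkl

include hp in
lemma cent_smul {c g : Γ} (hg : g ∈ Subgroup.centralizer {c}) (x : X) :
    g • x ∈ Att h c ↔ x ∈ Att h c := by
  have h1 : g * c = c * g := Subgroup.mem_centralizer_singleton_iff.1 hg
  constructor
  · intro hx
    have h2 : g⁻¹ * c = c * g⁻¹ := ((show Commute g c from h1).inv_left).eq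
    have := att_smul h hp h2 hx
    rwa [inv_smul_smul] at this
  · exact att_smul h hp h1

/-- the sum of the logarithms of the factors at the attracting periodic points of `c` -/
noncomputable def attHom (c : Γ) :
    Subgroup.centralizer ({c} : Set Γ) →* Multiplicative ℝ where
  toFun g := Multiplicative.ofAdd (∑ x ∈ (att_finite h hp c).toFinset, Real.log (lam h (g : Γ) x))
  map_one' := by
    rw [← ofAdd_zero]
    congr 1
    apply Finset.sum_eq_zero
    intro x _
    rw [Subgroup.coe_one, lam_one h hp, Real.log_one]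
  map_mul' g k := by
    rw [← ofAdd_add]
    congr 1
    have h1 : ∑ x ∈ (att_finite h hp c).toFinset, Real.log (lam h (g : Γ) x) =
        ∑ x ∈ (att_finite h hp c).toFinset, Real.log (lam h (g : Γ) ((k : Γ) • x)) := by
      symm
      apply Finset.sum_nbij' (fun x => (k : Γ) • x) (fun x => (k : Γ)⁻¹ • x)
      · intro x hx
        rw [Set.Finite.mem_toFinset] at hx ⊢
        exact (cent_smul h hp k.2 x).2 hx
      · intro x hx
        rw [Set.Finite.mem_toFinset] at hx ⊢
        exact (cent_smul h hp (Subgroup.inv_mem _ k.2) x).2 hx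
      · intro x _
        exact inv_smul_smul _ _
      · intro x _
        exact smul_inv_smul _ _
      · intro x _
        rfl
    rw [h1, ← Finset.sum_add_distrib]
    apply Finset.sum_congr rfl
    intro x _
    rw [Subgroup.coe_mul, lam_mul h hp, Real.log_mul (lam_pos h _ _).ne' (lam_pos h _ _).ne']

theorem attHom_ne {c : Γ} (hne : (Att h c).Nonempty) :
    attHom h hp c ⟨c, Subgroup.mem_centralizer_singleton_iff.2 rfl⟩ ≠ 1 := by
  classical
  intro h1
  set P := (att_finite h hp c).toFinset with hP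
  have hmem : ∀ x, x ∈ P ↔ x ∈ Att h c := fun x => Set.Finite.mem_toFinset _
  -- a common period
  have hper : ∃ N : ℕ, 0 < N ∧ ∀ x ∈ P, c ^ N • x = x ∧ lam h (c ^ N) x < 1 := by
    choose! k hk1 hk2 hk3 using fun (x : X) (hx : x ∈ Att h c) => hx
    refine ⟨∏ x ∈ P, k x, Finset.prod_pos fun x hx => hk1 x ((hmem x).1 hx), ?_⟩
    intro x hx
    have hx' := (hmem x).1 hx
    have hdvd : k x ∣ ∏ x ∈ P, k x := Finset.dvd_prod_of_mem k hx
    obtain ⟨m, hm⟩ := hdvd
    have hm0 : m ≠ 0 := by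
      rintro rfl
      have : 0 < ∏ x ∈ P, k x := Finset.prod_pos fun x hx => hk1 x ((hmem x).1 hx)
      omega
    rw [hm, pow_mul]
    refine ⟨pow_smul_of_fixed (hk2 x hx') m, ?_⟩
    rw [lam_pow_of_fixed h hp (hk2 x hx')]
    exact pow_lt_one₀ (lam_pos h _ _).le (hk3 x hx') hm0
  obtain ⟨N, hN, hNP⟩ := hper
  have h2 : attHom h hp c (⟨c, Subgroup.mem_centralizer_singleton_iff.2 rfl⟩ ^ N) = 1 := by
    rw [map_pow, h1, one_pow]
  have h3 : ∑ x ∈ P, Real.log (lam h (c ^ N) x) = 0 := by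
    have := congrArg Multiplicative.toAdd h2
    exact this
  have h4 : ∑ x ∈ P, Real.log (lam h (c ^ N) x) < 0 := by
    apply Finset.sum_neg
    · intro x hx
      exact Real.log_neg (lam_pos h _ _) (hNP x hx).2
    · obtain ⟨x, hx⟩ := hne
      exact ⟨x, (hmem x).2 hx⟩
  exact h4.ne h3

/-- the powers of `c` have bounded factors -/
def Bdd (h : LocSim Γ X) (c : Γ) : Prop :=
  ∃ M : ℝ, 0 < M ∧ ∀ (n : ℕ) (x : X), M⁻¹ ≤ lam h (c ^ n) x ∧ lam h (c ^ n) x ≤ M

include hp in
/-- the dichotomy -/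
theorem hom_or_bdd (c : Γ) : Bdd h c ∨
    ∃ φ : Subgroup.centralizer ({c} : Set Γ) →* Multiplicative ℝ,
      φ ⟨c, Subgroup.mem_centralizer_singleton_iff.2 rfl⟩ ≠ 1 := by
  by_cases h1 : ∀ ε : ℝ, 0 < ε → ∃ (n : ℕ) (x : X), lam h (c ^ n) x < ε
  · right
    obtain ⟨k, z, hk, hkz, hkl⟩ := exists_attracting h hp h1
    exact ⟨attHom h hp c, attHom_ne h hp ⟨z, k, hk, hkz, hkl⟩⟩
  by_cases h2 : ∀ ε : ℝ, 0 < ε → ∃ (n : ℕ) (x : X), lam h (c⁻¹ ^ n) x < ε
  · right
    obtain ⟨k, z, hk, hkz, hkl⟩ := exists_attracting h hp h2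
    have hc : Subgroup.centralizer ({c} : Set Γ) ≤ Subgroup.centralizer ({c⁻¹} : Set Γ) := by
      intro g hg
      rw [Subgroup.mem_centralizer_singleton_iff] at hg ⊢
      exact ((show Commute g c from hg).inv_right).eq
    refine ⟨(attHom h hp c⁻¹).comp (Subgroup.inclusion hc), ?_⟩
    intro h3
    apply attHom_ne h hp (c := c⁻¹) ⟨z, k, hk, hkz, hkl⟩
    have h4 : (⟨c⁻¹, Subgroup.mem_centralizer_singleton_iff.2 rfl⟩ :
        Subgroup.centralizer ({c⁻¹} : Set Γ)) = (Subgroup.inclusion hc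
        ⟨c, Subgroup.mem_centralizer_singleton_iff.2 rfl⟩)⁻¹ := by
      apply Subtype.ext
      rfl
    rw [h4, map_inv]
    rw [MonoidHom.comp_apply] at h3
    rw [h3, inv_one]
  · left
    push Not at h1 h2
    obtain ⟨ε1, hε1, h1⟩ := h1
    obtain ⟨ε2, hε2, h2⟩ := h2
    refine ⟨ε1⁻¹ + ε2⁻¹, by positivity, ?_⟩
    intro n x
    have hle1 : (ε1⁻¹ + ε2⁻¹)⁻¹ ≤ ε1 := by
      rw [inv_le_comm₀ (by positivity) hε1]
      have := inv_pos.2 hε2
      linarith
    refine ⟨hle1.trans (h1 n x), ?_⟩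
    have h3 := h2 n (c ^ n • x)
    rw [inv_pow] at h3
    have h4 := lam_inv h hp (c ^ n) x
    have h5 := lam_pos h (c ^ n) x
    have h6 : lam h (c ^ n) x ≤ ε2⁻¹ := by
      rw [le_inv_comm₀ h5 hε2]
      rw [← eq_inv_of_mul_eq_one_left h4]
      exact h3
    have := inv_pos.2 hε1
    linarith

end Pool.Agent.W2helper25.LS
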