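import Pool.Agent.W2helper25.LS.RN

/-!
# Elements of infinite order of groups of local similarities
-/

set_option autoImplicit false
set_option linter.unusedSectionVars false

namespace Pool.Agent.W2helper25.LS

open Filter Topology Set Metric
open Pool.Agent.H26R2.Bass (Good bass_of_local)

universe u v w

/-- the factors of the powers of `c` are unbounded, or not bounded away from zero -/
def Unbounded {Γ : Type u} (X : Type v) [Group Γ] [MetricSpace X] [MulAction Γ X] (c : Γ) : Prop :=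
  ∀ M : ℝ, 0 < M → ∃ (n : ℕ) (x : X) (r l : ℝ), 0 < r ∧ 0 < l ∧ (M < l ∨ M * l < 1) ∧
    ∀ y z : X, dist y x < r → dist z x < r → dist (c ^ n • y) (c ^ n • z) = l * dist y z

section

variable {Γ : Type u} {X : Type v} [Group Γ] [MetricSpace X] [MulAction Γ X]
variable [IsUltrametricDist X] [CompactSpace X]

lemma Unbounded.not_bdd (h : LocSim Γ X) (hp : ∀ x : X, (𝓝[≠] x).NeBot) {c : Γ}
    (hc : Unbounded X c) : ¬ Bdd h c := by
  rintro ⟨M, hM, hb⟩
  obtain ⟨n, x, r, l, hr, hl, h1, hs⟩ := hc M hM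
  have h2 : l = lam h (c ^ n) x := SimOn.eq_lam h hp hr hs
  obtain ⟨h3, h4⟩ := hb n x
  rw [← h2] at h3 h4
  rcases h1 with h1 | h1
  · linarith
  · rw [inv_le_iff_one_le_mul₀' hM] at h3
    linarith

/-- faithful actions with torsion germs -/
theorem not_bdd_of_torsionGerms (h : LocSim Γ X) (hp : ∀ x : X, (𝓝[≠] x).NeBot)
    (ht : TorsionGerms Γ X) (hf : ∀ g : Γ, (∀ x : X, g • x = x) → g = 1) {c : Γ}
    (hc : ¬ IsOfFinOrder c) : ¬ Bdd h c := fun hb => hc (hb.finOrder h hp ht hf)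

end

/-- the restriction of the properties of the action to a subgroup -/
theorem not_bdd_sub {Γ : Type u} {X : Type v} [Group Γ] [MetricSpace X] [MulAction Γ X]
    [IsUltrametricDist X] [CompactSpace X] (h : LocSim Γ X) (hp : ∀ x : X, (𝓝[≠] x).NeBot)
    (ht : TorsionGerms Γ X) (hf : ∀ g : Γ, (∀ x : X, g • x = x) → g = 1) (H : Subgroup Γ) {c : H}
    (hc : ¬ IsOfFinOrder c) : ∃ h' : LocSim H X, ¬ Bdd h' c := by
  have h' : LocSim H X := fun g x => h (g : Γ) x
  refine ⟨h', not_bdd_of_torsionGerms h' hp ?_ ?_ hc⟩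
  · intro g x r hr hd hi
    obtain ⟨n, hn, s, hs, hy⟩ := ht (g : Γ) x r hr hd hi
    exact ⟨n, hn, s, hs, fun y hyx => hy y hyx⟩
  · intro g hg
    exact Subtype.ext (hf (g : Γ) hg)

end Pool.Agent.W2helper25.LS
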