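import Pool.Agent.W2helper25.LS.Seq

/-!
# Groups which act on infinite words locally like a self-similar group
-/

set_option autoImplicit false
set_option linter.unusedSectionVars false

namespace Pool.Agent.W2helper25.LS

open Filter Topology Set Metric

universe u v

section

variable {A : Type v}

/-- the group `G` of permutations of the infinite words is self-similar -/
def SelfSim (G : Subgroup (Equiv.Perm (Seq A))) : Prop :=
  ∀ g ∈ G, ∀ a : A, ∃ b : A, ∃ g' ∈ G, ∀ w : Seq A, g (cons a w) = cons b (g' w)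

/-- near each point `f` is of the form `l w ↦ l' g(w)` with finite words `l`, `l'` and `g` in `G` -/
def LocForm (G : Subgroup (Equiv.Perm (Seq A))) (f : Seq A → Seq A) : Prop :=
  ∀ x : Seq A, ∃ (l l' : List A) (w₀ : Seq A), x = app l w₀ ∧
    ∃ g ∈ G, ∀ w : Seq A, f (app l w) = app l' (g w)

variable {G : Subgroup (Equiv.Perm (Seq A))}

lemma SelfSim.word (hG : SelfSim G) {g : Equiv.Perm (Seq A)} (hg : g ∈ G) (l : List A) :
    ∃ l' : List A, l'.length = l.length ∧ ∃ g' ∈ G, ∀ w : Seq A, g (app l w) = app l' (g' w) := by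
  induction l generalizing g with
  | nil => exact ⟨[], rfl, g, hg, fun w => rfl⟩
  | cons a l ih =>
    obtain ⟨b, g', hg', h1⟩ := hG g hg a
    obtain ⟨l', hl', g'', hg'', h2⟩ := ih hg'
    refine ⟨b :: l', by simp [hl'], g'', hg'', fun w => ?_⟩
    show g (cons a (app l w)) = cons b (app l' (g'' w))
    rw [h1, h2]

lemma SelfSim.agree (hG : SelfSim G) {g : Equiv.Perm (Seq A)} (hg : g ∈ G) {n : ℕ} {w z : Seq A}
    (h : Agree n w z) : Agree n (g w) (g z) := by
  obtain ⟨l', hl', g', hg', h1⟩ := hG.word hg (takeW n w)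
  have h2 : app (takeW n w) (dropW n w) = w := take_drop n w
  have h3 : app (takeW n w) (dropW n z) = z := by rw [takeW_eq h, take_drop]
  have h4 : g w = app l' (g' (dropW n w)) := by rw [← h1, h2]
  have h5 : g z = app l' (g' (dropW n z)) := by rw [← h1, h3]
  rw [h4, h5]
  have h6 : Agree (l'.length + 0) (app l' (g' (dropW n w))) (app l' (g' (dropW n z))) :=
    agree_app.2 (fun i hi => by omega)
  rw [hl', length_takeW] at h6
  exact h6

lemma SelfSim.dist_eq (hG : SelfSim G) {g : Equiv.Perm (Seq A)} (hg : g ∈ G) (w z : Seq A) :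
    dist (g w) (g z) = dist w z := by
  have h1 := dist_eq_of_agree (x := w) (y := z) (x' := g w) (y' := g z) 0 (fun n => by
    rw [Nat.zero_add]
    constructor
    · intro h
      have h2 := hG.agree (G.inv_mem hg) h
      have h3 : ∀ y, (g⁻¹ : Equiv.Perm (Seq A)) (g y) = y := fun y => g.symm_apply_apply y
      rwa [h3, h3] at h2
    · exact hG.agree hg)
  rw [h1, pow_zero, one_mul]

lemma eq_app_of_dist {l : List A} {w y : Seq A} (h : dist y (app l w) ≤ (1 / 2 : ℝ) ^ l.length) :
    y = app l (dropW l.length y) := eq_app_of_agree (dist_le_iff.1 h)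

lemma LocForm.sim (hG : SelfSim G) {l l' : List A} {f : Seq A → Seq A}
    {g : Equiv.Perm (Seq A)} (hg : g ∈ G) (hf : ∀ w : Seq A, f (app l w) = app l' (g w))
    (w z : Seq A) : dist (f (app l w)) (f (app l z)) =
      (1 / 2 : ℝ) ^ l'.length * ((1 / 2 : ℝ) ^ l.length)⁻¹ * dist (app l w) (app l z) := by
  have h0 : ((1 / 2 : ℝ) ^ l.length) ≠ 0 := by positivity
  rw [hf, hf, dist_app, dist_app, hG.dist_eq hg]
  field_simp

/-- a uniform depth -/
lemma LocForm.uniform [Finite A] (hG : SelfSim G) {f : Seq A → Seq A} (hf : LocForm G f) :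
    ∃ D : ℕ, ∀ l : List A, D ≤ l.length → ∃ l' : List A, ∃ g ∈ G,
      ∀ w : Seq A, f (app l w) = app l' (g w) := by
  classical
  choose L L' W hx g hg hfg using hf
  obtain ⟨t, ht⟩ := (isCompact_univ (X := Seq A)).elim_nhds_subcover
    (fun x => closedBall x ((1 / 2 : ℝ) ^ (L x).length))
    (fun x _ => closedBall_mem_nhds x (by positivity))
  refine ⟨t.sup (fun x => (L x).length), ?_⟩
  intro l hl
  rcases isEmpty_or_nonempty (Seq A) with he | ⟨⟨w1⟩⟩
  · exact ⟨[], 1, G.one_mem, fun w => he.elim w⟩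
  · obtain ⟨x, hxt, hy⟩ := mem_iUnion₂.1 (ht.2 (mem_univ (app l w1)))
    have hlx : (L x).length ≤ l.length :=
      (Finset.le_sup (f := fun x => (L x).length) hxt).trans hl
    rw [mem_closedBall] at hy
    conv at hy =>
      lhs
      arg 2
      rw [hx x]
    have h1 := eq_app_of_dist hy
    -- `l` starts with `L x`
    have h2 : l = L x ++ l.drop (L x).length := by
      have h3 : app (l.take (L x).length) (app (l.drop (L x).length) w1) =
          app (L x) (dropW (L x).length (app l w1)) := by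
        rw [← app_append, List.take_append_drop]
        exact h1
      have h4 := (app_inj (by rw [List.length_take]; omega) h3).1
      conv_lhs => rw [← List.take_append_drop (L x).length l, h4]
    obtain ⟨l2, _, g2, hg2, h5⟩ := hG.word (hg x) (l.drop (L x).length)
    refine ⟨L' x ++ l2, g2, hg2, fun w => ?_⟩
    conv_lhs => rw [h2, app_append, hfg, h5]
    rw [app_append]

end

section

variable {A : Type v} {G : Subgroup (Equiv.Perm (Seq A))} {Γ : Type u} [Group Γ]
  [MulAction Γ (Seq A)]

lemma locSim_of_form (hG : SelfSim G) (hf : ∀ γ : Γ, LocForm G (fun x => γ • x)) :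
    LocSim Γ (Seq A) := by
  intro γ x
  obtain ⟨l, l', w₀, hx, g, hg, h1⟩ := hf γ x
  refine ⟨(1 / 2 : ℝ) ^ l.length, by positivity,
    (1 / 2 : ℝ) ^ l'.length * ((1 / 2 : ℝ) ^ l.length)⁻¹, by positivity, ?_⟩
  intro y z hy hz
  rw [hx] at hy hz
  rw [eq_app_of_dist hy.le, eq_app_of_dist hz.le]
  exact LocForm.sim hG hg h1 _ _

lemma torsionGerms_of_form [Finite A] [Nontrivial A] (hG : SelfSim G)
    (hT : ∀ g ∈ G, IsOfFinOrder g) (hf : ∀ γ : Γ, LocForm G (fun x => γ • x)) :
    TorsionGerms Γ (Seq A) := by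
  classical
  intro γ x r hr hd hiso
  have hP : Pres γ x r := ⟨hd, fun y z hy hz => by rw [hiso y z hy hz, one_mul]⟩
  obtain ⟨D, hD⟩ := (hf γ).uniform hG
  obtain ⟨m, hm⟩ := exists_pow_lt_of_lt_one hr (show (1 / 2 : ℝ) < 1 by norm_num)
  set E := max D m with hE
  have hEr : (1 / 2 : ℝ) ^ E < r :=
    lt_of_le_of_lt (pow_le_pow_of_le_one (by norm_num) (by norm_num) (le_max_right _ _)) hm
  set l := takeW E x with hl
  have hlE : l.length = E := length_takeW E x
  have hxl : app l (dropW E x) = x := take_drop E x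
  obtain ⟨w1, hw1, _⟩ := exists_near (fun x : Seq A => seq_perfect x) (dropW E x) one_pos
  have key : ∀ i : ℕ, ∃ v : List A, v.length = E ∧ ∃ g ∈ G, ∀ w : Seq A,
      γ ^ i • app l w = app v (g w) := by
    intro i
    induction i with
    | zero => exact ⟨l, hlE, 1, G.one_mem, fun w => by rw [pow_zero, one_smul]; rfl⟩
    | succ i ih =>
      obtain ⟨v, hv, g, hg, h1⟩ := ih
      obtain ⟨v', g', hg', h2⟩ := hD v (by rw [hv]; exact le_max_left _ _)
      have h3 : ∀ w : Seq A, γ ^ (i + 1) • app l w = app v' ((g' * g) w) := by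
        intro w
        rw [pow_succ', mul_smul, h1]
        exact h2 (g w)
      refine ⟨v', ?_, g' * g, G.mul_mem hg' hg, h3⟩
      have h4 : dist (γ ^ i • x) x < r := (hP.pow hr i).1
      have h5 : dist (γ ^ i • app l w1) (γ ^ i • x) < r := by
        rw [← hxl, h1, h1, dist_app, hv, hG.dist_eq hg]
        refine lt_of_le_of_lt ?_ hEr
        have h6 : dist w1 (dropW E x) ≤ 1 := by
          have := (dist_le_iff (x := w1) (y := dropW E x) (n := 0)).2 (fun i hi => by omega)
          simpa using this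
        have h7 : 0 ≤ (1 / 2 : ℝ) ^ E := by positivity
        nlinarith
      have h6 : dist (γ ^ i • app l w1) x < r := dist_lt_of h5 h4
      have h7 := hiso _ _ h6 h4
      rw [← mul_smul, ← mul_smul, ← pow_succ'] at h7
      rw [← hxl, h3, h3, h1, h1, dist_app, dist_app, hG.dist_eq (G.mul_mem hg' hg),
        hG.dist_eq hg, hv] at h7
      have h8 : dist w1 (dropW E x) ≠ 0 := dist_ne_zero.2 hw1
      have h9 := mul_right_cancel₀ h8 h7
      exact pow_right_injective₀ (by norm_num) (by norm_num) h9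
  choose v hv g hg h1 using key
  have hpig : ∃ i j : ℕ, i < j ∧ v i = v j := by
    have hfin : Finite {w : List A // w.length = E} :=
      inferInstanceAs (Finite (List.Vector A E))
    have h2 : ¬ Function.Injective (fun i : ℕ => (⟨v i, hv i⟩ : {w : List A // w.length = E})) :=
      not_injective_infinite_finite _
    rw [Function.not_injective_iff] at h2
    obtain ⟨i, j, hij, hne⟩ := h2
    have hij' : v i = v j := congrArg Subtype.val hij
    rcases lt_or_gt_of_ne hne with h3 | h3
    · exact ⟨i, j, h3, hij'⟩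
    · exact ⟨j, i, h3, hij'.symm⟩
  obtain ⟨i, j, hij, hvv⟩ := hpig
  set k : Equiv.Perm (Seq A) := (g i)⁻¹ * g j with hk
  have hkG : k ∈ G := G.mul_mem (G.inv_mem (hg i)) (hg j)
  have h2 : ∀ w : Seq A, γ ^ (j - i) • app l w = app l (k w) := by
    intro w
    have h3 : γ ^ i • (γ ^ (j - i) • app l w) = γ ^ i • app l (k w) := by
      have h5 : ∀ y, g i ((g i)⁻¹ y) = y := fun y => (g i).apply_symm_apply y
      rw [← mul_smul, ← pow_add, Nat.add_sub_cancel' hij.le, h1, h1, hvv, hk,
        Equiv.Perm.mul_apply, h5]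
    exact smul_left_cancel _ h3
  obtain ⟨n, hn, hkn⟩ := isOfFinOrder_iff_pow_eq_one.1 (hT k hkG)
  refine ⟨(j - i) * n, Nat.mul_pos (by omega) hn, (1 / 2 : ℝ) ^ E, by positivity, ?_⟩
  intro y hy
  have h3 : y = app l (dropW l.length y) := by
    apply eq_app_of_dist (w := dropW E x)
    rw [hxl, hlE]
    exact hy.le
  have h4 : ∀ (s : ℕ) (w : Seq A), (γ ^ (j - i)) ^ s • app l w = app l ((k ^ s) w) := by
    intro s
    induction s with
    | zero => intro w; rw [pow_zero, pow_zero, one_smul]; rfl
    | succ s ih =>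
      intro w
      rw [pow_succ, mul_smul, h2, ih, pow_succ]
      rfl
  rw [h3, pow_mul, h4, hkn]
  rfl

end

end Pool.Agent.W2helper25.LS
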