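import Pool.Agent.W2helper25.LS.Conj

/-!
# Infinite words and self-similar groups
-/

set_option autoImplicit false
set_option linter.unusedSectionVars false

namespace Pool.Agent.W2helper25.LS

open Filter Topology Set Metric

universe u v

/-- the infinite words in the alphabet `A` -/
def Seq (A : Type v) : Type v := ℕ → A

section

variable {A : Type v}

/-- `a` followed by `w` -/
def cons (a : A) (w : Seq A) : Seq A := fun n => Nat.casesOn n a w

/-- the finite word `l` followed by `w` -/
def app : List A → Seq A → Seq A
  | [], w => w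
  | a :: l, w => cons a (app l w)

/-- the first `n` letters -/
def takeW : ℕ → Seq A → List A
  | 0, _ => []
  | n + 1, x => x 0 :: takeW n (fun i => x (i + 1))

/-- the word without its first `n` letters -/
def dropW (n : ℕ) (x : Seq A) : Seq A := fun i => x (i + n)

lemma cons_zero (a : A) (w : Seq A) : cons a w 0 = a := rfl

lemma cons_succ (a : A) (w : Seq A) (n : ℕ) : cons a w (n + 1) = w n := rfl

lemma cons_eta (x : Seq A) : cons (x 0) (fun i => x (i + 1)) = x := by
  funext n
  cases n <;> rfl

lemma cons_inj {a b : A} {w z : Seq A} (h : cons a w = cons b z) : a = b ∧ w = z := by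
  refine ⟨congrFun h 0, ?_⟩
  funext n
  exact congrFun h (n + 1)

lemma app_append (l l' : List A) (w : Seq A) : app (l ++ l') w = app l (app l' w) := by
  induction l with
  | nil => rfl
  | cons a l ih => exact congrArg (cons a) ih

lemma app_inj {l l' : List A} {w z : Seq A} (hl : l.length = l'.length)
    (h : app l w = app l' z) : l = l' ∧ w = z := by
  induction l generalizing l' with
  | nil =>
    cases l' with
    | nil => exact ⟨rfl, h⟩
    | cons b l' => simp at hl
  | cons a l ih =>
    cases l' with
    | nil => simp at hl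
    | cons b l' =>
      obtain ⟨h1, h2⟩ := cons_inj h
      obtain ⟨h3, h4⟩ := ih (by simpa using hl) h2
      exact ⟨by rw [h1, h3], h4⟩

lemma length_takeW (n : ℕ) (x : Seq A) : (takeW n x).length = n := by
  induction n generalizing x with
  | zero => rfl
  | succ n ih =>
    show (takeW n (fun i => x (i + 1))).length + 1 = n + 1
    rw [ih (fun i => x (i + 1))]

lemma take_drop (n : ℕ) (x : Seq A) : app (takeW n x) (dropW n x) = x := by
  induction n generalizing x with
  | zero => rfl
  | succ n ih =>
    show cons (x 0) (app (takeW n (fun i => x (i + 1))) (dropW (n + 1) x)) = x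
    have h1 := ih (fun i => x (i + 1))
    have h2 : dropW (n + 1) x = dropW n (fun i => x (i + 1)) := by
      funext i
      show x (i + (n + 1)) = x (i + n + 1)
      rfl
    rw [h2, h1, cons_eta]

/-- the words agree in the first `n` letters -/
def Agree (n : ℕ) (x y : Seq A) : Prop := ∀ i < n, x i = y i

lemma agree_cons {n : ℕ} {a : A} {w z : Seq A} :
    Agree (n + 1) (cons a w) (cons a z) ↔ Agree n w z := by
  constructor
  · intro h i hi
    exact h (i + 1) (by omega)
  · intro h i hi
    cases i with
    | zero => rfl
    | succ i => exact h i (by omega)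

lemma agree_app {n : ℕ} {l : List A} {w z : Seq A} :
    Agree (l.length + n) (app l w) (app l z) ↔ Agree n w z := by
  induction l with
  | nil => simp [app]
  | cons a l ih =>
    show Agree ((l.length + 1) + n) (cons a (app l w)) (cons a (app l z)) ↔ _
    rw [Nat.add_right_comm, agree_cons, ih]

lemma takeW_eq {n : ℕ} {x y : Seq A} (h : Agree n x y) : takeW n x = takeW n y := by
  induction n generalizing x y with
  | zero => rfl
  | succ n ih =>
    show x 0 :: takeW n (fun i => x (i + 1)) = y 0 :: takeW n (fun i => y (i + 1))
    rw [h 0 (by omega), ih (x := fun i => x (i + 1)) (y := fun i => y (i + 1))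
      (fun i hi => h (i + 1) (by omega))]

/-- a word which agrees with `app l w` in the first letters is of this form -/
lemma eq_app_of_agree {l : List A} {w y : Seq A} (h : Agree l.length y (app l w)) :
    y = app l (dropW l.length y) := by
  have h1 := takeW_eq h
  have h2 : takeW l.length (app l w) = l := by
    have h3 := take_drop l.length (app l w)
    exact (app_inj (length_takeW _ _) h3).1
  rw [h2] at h1
  conv_lhs => rw [← take_drop l.length y, h1]

/-- the letters, with the discrete topology -/
def Ltr (A : Type v) : Type v := A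

instance : TopologicalSpace (Ltr A) := ⊥

instance : DiscreteTopology (Ltr A) := ⟨rfl⟩

instance [Finite A] : Finite (Ltr A) := inferInstanceAs (Finite A)

noncomputable instance : MetricSpace (Seq A) := PiNat.metricSpace (E := fun _ : ℕ => Ltr A)

lemma dist_def (x y : Seq A) :
    dist x y = (PiNat.dist (E := fun _ : ℕ => Ltr A)).dist x y := rfl

lemma dist_le_iff {x y : Seq A} {n : ℕ} : dist x y ≤ (1 / 2 : ℝ) ^ n ↔ Agree n x y := by
  rw [dist_def]
  exact (PiNat.mem_cylinder_iff_dist_le (E := fun _ : ℕ => Ltr A) (x := y) (y := x) (n := n)).symm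

lemma dist_ne {x y : Seq A} (h : x ≠ y) :
    dist x y = (1 / 2 : ℝ) ^ PiNat.firstDiff (E := fun _ : ℕ => Ltr A) x y := by
  rw [dist_def]
  exact PiNat.dist_eq_of_ne (E := fun _ : ℕ => Ltr A) h

/-- two pairs of words which agree equally far up to a shift -/
lemma dist_eq_of_agree {x y x' y' : Seq A} (k : ℕ)
    (h : ∀ n, Agree (k + n) x' y' ↔ Agree n x y) :
    dist x' y' = (1 / 2 : ℝ) ^ k * dist x y := by
  by_cases hxy : x = y
  · subst hxy
    have h1 : x' = y' := by
      funext i
      exact (h (i + 1)).2 (fun _ _ => rfl) i (by omega)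
    rw [h1, dist_self, dist_self, mul_zero]
  · have hxy' : x' ≠ y' := by
      intro h1
      apply hxy
      funext i
      exact (h (i + 1)).1 (fun _ _ => by rw [h1]) i (by omega)
    rw [dist_ne hxy, dist_ne hxy', ← pow_add]
    congr 1
    set a := PiNat.firstDiff (E := fun _ : ℕ => Ltr A) x y with ha
    set b := PiNat.firstDiff (E := fun _ : ℕ => Ltr A) x' y' with hb
    have e1 : ∀ m, Agree m x y ↔ m ≤ a := by
      intro m
      rw [← dist_le_iff, dist_ne hxy, pow_le_pow_iff_right_of_lt_one₀ (by norm_num) (by norm_num)]
    have e2 : ∀ m, Agree m x' y' ↔ m ≤ b := by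
      intro m
      rw [← dist_le_iff, dist_ne hxy', pow_le_pow_iff_right_of_lt_one₀ (by norm_num) (by norm_num)]
    apply le_antisymm
    · by_contra h1
      push Not at h1
      have h2 := (e1 (b - k)).1 ((h _).1 (by rw [Nat.add_sub_cancel' (by omega)]; exact (e2 b).2 le_rfl))
      omega
    · exact (e2 _).1 ((h a).2 ((e1 a).2 le_rfl))

lemma dist_app (l : List A) (w z : Seq A) :
    dist (app l w) (app l z) = (1 / 2 : ℝ) ^ l.length * dist w z :=
  dist_eq_of_agree l.length fun _ => agree_app

instance : IsUltrametricDist (Seq A) where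
  dist_triangle_max x y z := by
    rw [dist_def, dist_def, dist_def]
    exact PiNat.dist_triangle_nonarch (E := fun _ : ℕ => Ltr A) x y z

instance [Finite A] : CompactSpace (Seq A) :=
  inferInstanceAs (CompactSpace (∀ _ : ℕ, Ltr A))

/-- no isolated points -/
lemma seq_perfect [Nontrivial A] (x : Seq A) : (𝓝[≠] x).NeBot := by
  rw [← mem_closure_iff_nhdsWithin_neBot, Metric.mem_closure_iff]
  intro ε hε
  obtain ⟨n, hn⟩ := exists_pow_lt_of_lt_one hε (show (1 / 2 : ℝ) < 1 by norm_num)
  obtain ⟨a, ha⟩ := exists_ne (dropW n x 0)
  refine ⟨app (takeW n x) (cons a (dropW (n + 1) x)), ?_, ?_⟩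
  · intro h1
    rw [mem_singleton_iff] at h1
    have h2 := take_drop n x
    rw [← h2] at h1
    conv_lhs at h1 => rw [h2]
    have h3 := (app_inj rfl h1).2
    exact ha (congrFun h3 0)
  · refine lt_of_le_of_lt ?_ hn
    rw [dist_le_iff]
    intro i hi
    have h2 := take_drop n x
    conv_lhs => rw [← h2]
    have h3 : Agree ((takeW n x).length + 0) (app (takeW n x) (dropW n x))
        (app (takeW n x) (cons a (dropW (n + 1) x))) := agree_app.2 (fun i hi => by omega)
    exact h3 i (by rw [length_takeW]; omega)

end

end Pool.Agent.W2helper25.LS
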